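import Pool.Agent.W511.LowB.Fld

/-!
# Computable copies on computable sets of natural numbers and on the set of all natural numbers
-/

set_option autoImplicit false

namespace Pool.Agent.W511.LowB

open Encodable Pool.Agent.Helper578.JD Pool.Agent.Helper578.JD.Oracle

/-- counting a computable set -/
theorem count_comp {D : Set ℕ} [DecidablePred fun n => n ∈ D]
    (hD : ComputablePred fun n : ℕ => n ∈ D) : Computable fun n => Nat.count (fun k => k ∈ D) n := by
  obtain ⟨f, hf, hfe⟩ := ComputablePred.computable_iff.1 hD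
  have hf' : ∀ n, n ∈ D ↔ f n = true := fun n => by
    have := congrFun hfe n
    exact iff_of_eq this
  have h1 : Computable fun n : ℕ => (Nat.rec (motive := fun _ => ℕ) 0
      (fun k v => v + cond (f k) 1 0) n : ℕ) := by
    refine Computable.nat_rec (f := fun n : ℕ => n) (g := fun _ => 0)
      (h := fun (_ : ℕ) (y : ℕ × ℕ) => y.2 + cond (f y.1) 1 0) Computable.id
      (Computable.const 0) ?_
    exact Primrec.nat_add.to_comp.comp (Computable.snd.comp Computable.snd)
      (Computable.cond (hf.comp (Computable.fst.comp Computable.snd)) (Computable.const 1)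
        (Computable.const 0))
  refine h1.of_eq fun n => ?_
  induction n with
  | zero => simp
  | succ n ih =>
    show (Nat.rec (motive := fun _ => ℕ) 0 (fun k v => v + cond (f k) 1 0) n : ℕ) +
      cond (f n) 1 0 = _
    rw [ih, Nat.count_succ]
    congr 1
    by_cases h : n ∈ D
    · rw [if_pos h, (hf' n).1 h, cond_true]
    · rw [if_neg h]
      have : f n = false := by
        rw [← Bool.not_eq_true]; exact fun h2 => h ((hf' n).2 h2)
      rw [this, cond_false]

/-- enumerating an infinite computable set -/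
theorem nth_comp {D : Set ℕ} [DecidablePred fun n => n ∈ D]
    (hD : ComputablePred fun n : ℕ => n ∈ D) (hinf : (setOf fun n => n ∈ D).Infinite) :
    Computable fun n => Nat.nth (fun k => k ∈ D) n := by
  refine RE.computable_of_graph ?_
  have h : REPred fun x : ℕ × ℕ => x.2 ∈ D ∧ Nat.count (fun k => k ∈ D) x.2 = x.1 := by
    refine RE.and (RE.comp hD.to_re (f := fun x : ℕ × ℕ => x.2) (by fun_prop)) (RE.eq ?_ (by fun_prop))
    exact (count_comp hD).comp (f := fun n => Nat.count (fun k => k ∈ D) n)
      (g := fun x : ℕ × ℕ => x.2) (by fun_prop)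
  refine h.of_eq fun x => ?_
  constructor
  · rintro ⟨h1, h2⟩
    rw [← h2, Nat.nth_count h1]
  · intro h1
    rw [← h1]
    exact ⟨Nat.nth_mem_of_infinite hinf _, Nat.count_nth_of_infinite hinf _⟩

/-- A field structure with a computable ordering on a computable set of natural numbers gives one
on the set of all natural numbers. -/
theorem no_copy {F : Type} [Field F] [LinearOrder F] [IsStrictOrderedRing F]
    (hF : ∀ e : ℕ ≃ F, Computable₂ (fun a b : ℕ => e.symm (e a + e b)) →
      Computable₂ (fun a b : ℕ => e.symm (e a * e b)) → ∀ P : Set F,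
      ComputablePred (fun a : ℕ => e a ∈ P) → (0 : F) ∉ P →
      (∀ x y : F, x ∈ P → y ∈ P → x + y ∈ P) → (∀ x y : F, x ∈ P → y ∈ P → x * y ∈ P) →
      (∀ x : F, x ≠ 0 → x ∈ P ∨ -x ∈ P) → False)
    (D : Set ℕ) (hD : ComputablePred fun n : ℕ => n ∈ D) (φ : F ≃ D)
    (add mul : ℕ → ℕ → ℕ) (lt : ℕ → ℕ → Bool) (hadd : Computable₂ add) (hmul : Computable₂ mul)
    (hlt : Computable₂ lt) (h1 : ∀ x y, ((φ (x + y) : D) : ℕ) = add (φ x) (φ y))
    (h2 : ∀ x y, ((φ (x * y) : D) : ℕ) = mul (φ x) (φ y))
    (h3 : ∀ x y, x < y ↔ lt (φ x) (φ y) = true) : False := by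
  classical
  have hinfD : Infinite D := Infinite.of_injective φ φ.injective
  have hinf : (setOf fun n => n ∈ D).Infinite := Set.infinite_coe_iff.1 hinfD
  let nth : ℕ → ℕ := fun n => Nat.nth (fun k => k ∈ D) n
  let cnt : ℕ → ℕ := fun n => Nat.count (fun k => k ∈ D) n
  have hnth : Computable nth := nth_comp hD hinf
  have hcnt : Computable cnt := count_comp hD
  have hmem : ∀ n, nth n ∈ D := fun n => Nat.nth_mem_of_infinite hinf n
  have hcn : ∀ n, cnt (nth n) = n := fun n => Nat.count_nth_of_infinite hinf n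
  have hnc : ∀ x, x ∈ D → nth (cnt x) = x := fun x hx => Nat.nth_count hx
  let e : ℕ ≃ F :=
    { toFun := fun n => φ.symm ⟨nth n, hmem n⟩
      invFun := fun x => cnt (φ x)
      left_inv := fun n => by simp [hcn]
      right_inv := fun x => by
        have : (⟨nth (cnt (φ x)), hmem _⟩ : D) = φ x := Subtype.ext (hnc _ (φ x).2)
        show φ.symm ⟨nth (cnt (φ x)), hmem _⟩ = x
        rw [this, Equiv.symm_apply_apply] }
  have hφe : ∀ n, ((φ (e n) : D) : ℕ) = nth n := fun n => by
    show ((φ (φ.symm ⟨nth n, hmem n⟩) : D) : ℕ) = nth n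
    rw [Equiv.apply_symm_apply]
  refine hF e ?_ ?_ {x | 0 < x} ?_ ?_ ?_ ?_ ?_
  · have h : Computable₂ fun a b : ℕ => cnt (add (nth a) (nth b)) :=
      hcnt.comp (hadd.comp (hnth.comp Computable.fst) (hnth.comp Computable.snd))
    refine h.of_eq fun p => ?_
    show cnt (add (nth p.1) (nth p.2)) = cnt (φ (e p.1 + e p.2))
    rw [h1, hφe, hφe]
  · have h : Computable₂ fun a b : ℕ => cnt (mul (nth a) (nth b)) :=
      hcnt.comp (hmul.comp (hnth.comp Computable.fst) (hnth.comp Computable.snd))
    refine h.of_eq fun p => ?_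
    show cnt (mul (nth p.1) (nth p.2)) = cnt (φ (e p.1 * e p.2))
    rw [h2, hφe, hφe]
  · refine ComputablePred.computable_iff.2 ⟨fun a => lt (φ 0) (nth a), ?_, ?_⟩
    · exact hlt.comp (Computable.const _) hnth
    · funext a
      apply propext
      show 0 < e a ↔ _
      rw [h3, hφe]
  · simp
  · intro x y hx hy
    exact add_pos hx hy
  · intro x y hx hy
    exact mul_pos hx hy
  · intro x hx
    rcases lt_trichotomy 0 x with h | h | h
    · exact Or.inl h
    · exact absurd h.symm hx
    · exact Or.inr (by simpa using h)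

end Pool.Agent.W511.LowB
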