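import Pool.Agent.Helper578.JD.Core

/-!
# The low basis theorem

A `Π⁰₁` class is given by a computably enumerable set `S` of finite pieces of information which are
forbidden.  Every nonempty `Π⁰₁` class has a member whose jump is computable from the halting
problem.
-/

set_option autoImplicit false

namespace Pool.Agent.W511.LowB

open Encodable Pool.Agent.Helper578.JD Pool.Agent.Helper578.JD.Oracle
open Pool.Agent.Helper578.JD.RE (re_iff)

/-- The set coded by the binary digits of a number. -/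
def bset (m : ℕ) : Set ℕ := {x | m / 2 ^ x % 2 = 1}

theorem exists_bset (A : Set ℕ) (N : ℕ) : ∃ m < 2 ^ N, ∀ x < N, (x ∈ bset m ↔ x ∈ A) := by
  classical
  refine ⟨Nat.ofBits (fun i : Fin N => decide ((i : ℕ) ∈ A)), Nat.ofBits_lt_two_pow _, ?_⟩
  intro x hx
  have h := Nat.testBit_ofBits_lt (fun i : Fin N => decide ((i : ℕ) ∈ A)) x hx
  rw [Nat.testBit_eq_decide_div_mod_eq] at h
  have h2 : (decide (Nat.ofBits (fun i : Fin N => decide ((i : ℕ) ∈ A)) / 2 ^ x % 2 = 1) = true) ↔
      (decide (x ∈ A) = true) := by rw [h]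
  simpa [bset] using h2

/-- A finite list of forbidden pieces of information leaves no set. -/
def Fin0 (cs : List Info) (N : ℕ) : Prop :=
  (∀ c ∈ cs, ∀ x ∈ c.1, x < N) ∧ (∀ c ∈ cs, ∀ x ∈ c.2, x < N) ∧
    ∀ m < 2 ^ N, ∃ c ∈ cs, (∀ x ∈ c.1, m / 2 ^ x % 2 = 1) ∧ ∀ x ∈ c.2, m / 2 ^ x % 2 = 0

theorem fin0_iff (cs : List Info) : (∃ N, Fin0 cs N) ↔ ∀ A : Set ℕ, ∃ c ∈ cs, Ok A c := by
  constructor
  · rintro ⟨N, h1, h2, h3⟩ A
    obtain ⟨m, hm, hA⟩ := exists_bset A N
    obtain ⟨c, hc, h4, h5⟩ := h3 m hm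
    refine ⟨c, hc, ?_, ?_⟩
    · intro x hx
      exact (hA x (h1 c hc x hx)).1 (h4 x hx)
    · intro x hx hxA
      have := (hA x (h2 c hc x hx)).2 hxA
      have h6 := h5 x hx
      simp only [bset, Set.mem_ofPred_eq] at this
      omega
  · intro h
    let N : ℕ := (cs.flatMap fun c => c.1 ++ c.2).sum + 1
    have hN : ∀ c ∈ cs, ∀ x ∈ c.1 ++ c.2, x < N := by
      intro c hc x hx
      have h1 : x ∈ cs.flatMap fun c => c.1 ++ c.2 := List.mem_flatMap.2 ⟨c, hc, hx⟩
      have := List.single_le_sum (l := cs.flatMap fun c => c.1 ++ c.2) (fun _ _ => Nat.zero_le _) x h1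
      omega
    refine ⟨N, fun c hc x hx => hN c hc x (List.mem_append_left _ hx),
      fun c hc x hx => hN c hc x (List.mem_append_right _ hx), fun m _ => ?_⟩
    obtain ⟨c, hc, h4, h5⟩ := h (bset m)
    refine ⟨c, hc, h4, fun x hx => ?_⟩
    have := h5 x hx
    simp only [bset, Set.mem_ofPred_eq] at this
    omega

theorem cpow {α : Type*} [Primcodable α] {f : α → ℕ} (hf : Computable f) :
    Computable fun a => 2 ^ f a := by
  have h : Computable fun n : ℕ => 2 ^ n := by
    have h1 : Computable fun n : ℕ => (Nat.rec (motive := fun _ => ℕ) 1 (fun _ v => 2 * v) n : ℕ) :=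
      Computable.nat_rec (f := fun n : ℕ => n) (g := fun _ => 1)
        (h := fun (_ : ℕ) (y : ℕ × ℕ) => 2 * y.2) Computable.id (Computable.const 1)
        (Primrec.nat_mul.to_comp.comp (Computable.const 2) (Computable.snd.comp Computable.snd))
    refine h1.of_eq fun n => ?_
    induction n with
    | zero => rfl
    | succ n ih => rw [pow_succ, ← ih]; simp [mul_comm]
  exact h.comp hf

theorem cdig {α : Type*} [Primcodable α] {f g : α → ℕ} (hf : Computable f) (hg : Computable g) :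
    Computable fun a => f a / 2 ^ g a % 2 :=
  Primrec.nat_mod.to_comp.comp (Primrec.nat_div.to_comp.comp hf (cpow hg)) (Computable.const 2)

theorem fin0_re : REPred fun p : List Info × ℕ => Fin0 p.1 p.2 := by
  refine RE.and ?_ (RE.and ?_ ?_)
  · refine RE.all_mem (p := fun (p : List Info × ℕ) (c : Info) => ∀ x ∈ c.1, x < p.2)
      (l := fun p => p.1) ?_ (by fun_prop)
    exact RE.all_mem (p := fun (q : (List Info × ℕ) × Info) (x : ℕ) => x < q.1.2)
      (l := fun q => q.2.1) (RE.lt (by fun_prop) (by fun_prop)) (by fun_prop)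
  · refine RE.all_mem (p := fun (p : List Info × ℕ) (c : Info) => ∀ x ∈ c.2, x < p.2)
      (l := fun p => p.1) ?_ (by fun_prop)
    exact RE.all_mem (p := fun (q : (List Info × ℕ) × Info) (x : ℕ) => x < q.1.2)
      (l := fun q => q.2.2) (RE.lt (by fun_prop) (by fun_prop)) (by fun_prop)
  · refine RE.all_lt (p := fun (p : List Info × ℕ) (m : ℕ) => ∃ c ∈ p.1,
      (∀ x ∈ c.1, m / 2 ^ x % 2 = 1) ∧ ∀ x ∈ c.2, m / 2 ^ x % 2 = 0) ?_ (cpow (by fun_prop))
    refine RE.ex_mem (p := fun (q : (List Info × ℕ) × ℕ) (c : Info) =>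
      (∀ x ∈ c.1, q.2 / 2 ^ x % 2 = 1) ∧ ∀ x ∈ c.2, q.2 / 2 ^ x % 2 = 0)
      (l := fun q => q.1.1) (RE.and ?_ ?_) (by fun_prop)
    · exact RE.all_mem (p := fun (q : ((List Info × ℕ) × ℕ) × Info) (x : ℕ) =>
        q.1.2 / 2 ^ x % 2 = 1) (l := fun q => q.2.1)
        (RE.eq (cdig (by fun_prop) (by fun_prop)) (by fun_prop)) (by fun_prop)
    · exact RE.all_mem (p := fun (q : ((List Info × ℕ) × ℕ) × Info) (x : ℕ) =>
        q.1.2 / 2 ^ x % 2 = 0) (l := fun q => q.2.2)
        (RE.eq (cdig (by fun_prop) (by fun_prop)) (by fun_prop)) (by fun_prop)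

/-- Compactness of Cantor space. -/
theorem compactness (B : Info → Prop) (h : ∀ A : Set ℕ, ∃ c, B c ∧ Ok A c) :
    ∃ cs : List Info, (∀ c ∈ cs, B c) ∧ ∀ A : Set ℕ, ∃ c ∈ cs, Ok A c := by
  classical
  let F : {c // B c} → Set (ℕ → Bool) := fun c => {f | ¬ Ok {n | f n = true} c.1}
  have hclosed : ∀ c, IsClosed (F c) := by
    intro c
    have : F c = (⋂ x ∈ {x | x ∈ c.1.1}, {f : ℕ → Bool | f x = true} ∩
        ⋂ x ∈ {x | x ∈ c.1.1}, {f : ℕ → Bool | f x = true})ᶜ ∪
        (⋂ x ∈ {x | x ∈ c.1.2}, {f : ℕ → Bool | f x = false})ᶜ := by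
      ext f
      simp only [F, Ok, Set.mem_ofPred_eq, Set.mem_union, Set.mem_compl_iff, Set.mem_iInter,
        Set.mem_inter_iff]
      constructor
      · intro hf
        by_contra h2
        push Not at h2
        exact hf ⟨fun x hx => (h2.1 x hx).1, fun x hx => by simp [h2.2 x hx]⟩
      · rintro (h2 | h2) ⟨h3, h4⟩
        · exact h2 fun x hx => ⟨h3 x hx, fun y hy => h3 y hy⟩
        · exact h2 fun x hx => by simpa using h4 x hx
    rw [this]
    have hfin : ∀ (l : List ℕ), Set.Finite {x | x ∈ l} := fun l => List.finite_toSet l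
    have hop : ∀ (x : ℕ) (b : Bool), IsOpen {f : ℕ → Bool | f x = b} := fun x b =>
      (isOpen_discrete ({b} : Set Bool)).preimage (continuous_apply (A := fun _ : ℕ => Bool) x)
    refine IsClosed.union ?_ ?_
    · rw [isClosed_compl_iff]
      refine (hfin c.1.1).isOpen_biInter fun x _ => (hop x true).inter ?_
      exact (hfin c.1.1).isOpen_biInter fun x _ => hop x true
    · rw [isClosed_compl_iff]
      exact (hfin c.1.2).isOpen_biInter fun x _ => hop x false
  by_contra hno
  push Not at hno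
  have hne : (⋂ c, F c).Nonempty := by
    by_contra hemp
    rw [Set.not_nonempty_iff_eq_empty] at hemp
    have h0 : (Set.univ ∩ ⋂ c, F c) = ∅ := by rw [hemp]; simp
    obtain ⟨u, hu⟩ := isCompact_univ.elim_finite_subfamily_closed F hclosed h0
    obtain ⟨A, hA⟩ := hno (u.toList.map fun c => c.1) (by
      intro c hc
      obtain ⟨d, -, rfl⟩ := List.mem_map.1 hc
      exact d.2)
    have : (fun n => decide (n ∈ A)) ∈ (Set.univ ∩ ⋂ i ∈ u, F i) := by
      refine ⟨trivial, Set.mem_iInter₂.2 fun c hc => ?_⟩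
      have h1 := hA c.1 (List.mem_map.2 ⟨c, by simpa using hc, rfl⟩)
      simpa [F] using h1
    rw [hu] at this
    exact this
  obtain ⟨f, hf⟩ := hne
  obtain ⟨c, hc, hok⟩ := h {n | f n = true}
  exact (Set.mem_iInter.1 hf ⟨c, hc⟩) hok

/-- The forbidden pieces of information when the numbers in `L` shall not be in the jump. -/
def bad (S : Info → Prop) (L : List ℕ) (c : Info) : Prop := S c ∨ ∃ e ∈ L, W e (encode c)

/-- The class is empty. -/
def Emp (S : Info → Prop) (L : List ℕ) : Prop := ∀ A : Set ℕ, ∃ c, bad S L c ∧ Ok A c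

theorem emp_re {S : Info → Prop} (hS : REPred S) : REPred (Emp S) := by
  have h : REPred fun L : List ℕ => ∃ cs : List Info, (∀ c ∈ cs, bad S L c) ∧ ∃ N, Fin0 cs N := by
    refine RE.ex (p := fun (L : List ℕ) (cs : List Info) => (∀ c ∈ cs, bad S L c) ∧ ∃ N, Fin0 cs N)
      (RE.and ?_ ?_)
    · refine RE.all_mem (p := fun (q : List ℕ × List Info) (c : Info) => bad S q.1 c)
        (l := fun q => q.2) (RE.or ?_ ?_) (by fun_prop)
      · exact RE.comp hS (f := fun q : (List ℕ × List Info) × Info => q.2) (by fun_prop)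
      · refine RE.ex_mem (p := fun (q : (List ℕ × List Info) × Info) (e : ℕ) => W e (encode q.2))
          (l := fun q => q.1.1) ?_ (by fun_prop)
        exact RE.comp W_re (f := fun q : ((List ℕ × List Info) × Info) × ℕ =>
          (q.2, encode q.1.2)) (by fun_prop)
    · refine RE.ex (p := fun (q : List ℕ × List Info) (N : ℕ) => Fin0 q.2 N) ?_
      exact RE.comp fin0_re (f := fun q : (List ℕ × List Info) × ℕ => (q.1.2, q.2)) (by fun_prop)
  refine h.of_eq fun L => ?_
  constructor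
  · rintro ⟨cs, h1, h2⟩ A
    obtain ⟨c, hc, hok⟩ := (fin0_iff cs).1 h2 A
    exact ⟨c, h1 c hc, hok⟩
  · intro h1
    obtain ⟨cs, h2, h3⟩ := compactness _ h1
    exact ⟨cs, h2, (fin0_iff cs).2 h3⟩

open Classical in
/-- The numbers which are kept out of the jump. -/
noncomputable def LL (S : Info → Prop) : ℕ → List ℕ
  | 0 => []
  | e + 1 => if Emp S (e :: LL S e) then LL S e else e :: LL S e

theorem LL_succ_pos {S : Info → Prop} {e : ℕ} (h : Emp S (e :: LL S e)) :
    LL S (e + 1) = LL S e := by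
  classical
  simp only [LL, if_pos h]

theorem LL_succ_neg {S : Info → Prop} {e : ℕ} (h : ¬ Emp S (e :: LL S e)) :
    LL S (e + 1) = e :: LL S e := by
  classical
  simp only [LL, if_neg h]

theorem LL_not_emp {S : Info → Prop} (h : ¬ Emp S []) (e : ℕ) : ¬ Emp S (LL S e) := by
  induction e with
  | zero => exact h
  | succ e ih =>
    by_cases h1 : Emp S (e :: LL S e)
    · rw [LL_succ_pos h1]; exact ih
    · rw [LL_succ_neg h1]; exact h1

theorem LL_mono {S : Info → Prop} {e f : ℕ} (h : e ≤ f) : ∀ x ∈ LL S e, x ∈ LL S f := by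
  induction f, h using Nat.le_induction with
  | base => exact fun x hx => hx
  | succ f _ ih =>
    intro x hx
    by_cases h1 : Emp S (f :: LL S f)
    · rw [LL_succ_pos h1]; exact ih x hx
    · rw [LL_succ_neg h1]; exact List.mem_cons_of_mem _ (ih x hx)

theorem bad_mono {S : Info → Prop} {L L' : List ℕ} (h : ∀ x ∈ L, x ∈ L') {c : Info}
    (hc : bad S L c) : bad S L' c := by
  rcases hc with hc | ⟨e, he, hW⟩
  · exact Or.inl hc
  · exact Or.inr ⟨e, h e he, hW⟩

/-- a member of all the classes -/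
theorem exists_member {S : Info → Prop} (h : ¬ Emp S []) :
    ∃ A : Set ℕ, ∀ n c, bad S (LL S n) c → ¬ Ok A c := by
  by_contra hno
  push Not at hno
  obtain ⟨cs, h1, h2⟩ := compactness (fun c => ∃ n, bad S (LL S n) c) (fun A => by
    obtain ⟨n, c, hc, hok⟩ := hno A
    exact ⟨c, ⟨n, hc⟩, hok⟩)
  have h3 : ∃ n, ∀ c ∈ cs, bad S (LL S n) c := by
    clear h2
    induction cs with
    | nil => exact ⟨0, by simp⟩
    | cons c cs ih =>
      obtain ⟨n, hn⟩ := ih fun c hc => h1 c (List.mem_cons_of_mem _ hc)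
      obtain ⟨m, hm⟩ := h1 c List.mem_cons_self
      refine ⟨max n m, fun d hd => ?_⟩
      rcases List.mem_cons.1 hd with rfl | hd
      · exact bad_mono (LL_mono (le_max_right _ _)) hm
      · exact bad_mono (LL_mono (le_max_left _ _)) (hn d hd)
  obtain ⟨n, hn⟩ := h3
  refine LL_not_emp h n fun A => ?_
  obtain ⟨c, hc, hok⟩ := h2 A
  exact ⟨c, hn c hc, hok⟩

theorem mem_jump_iff {S : Info → Prop} {A : Set ℕ} (hA : ∀ n c, bad S (LL S n) c → ¬ Ok A c)
    (e : ℕ) : e ∈ jump A ↔ Emp S (e :: LL S e) := by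
  constructor
  · rintro ⟨c, hok, hW⟩
    by_contra h1
    refine hA (e + 1) c ?_ hok
    rw [LL_succ_neg h1]
    exact Or.inr ⟨e, List.mem_cons_self, hW⟩
  · intro h1
    obtain ⟨c, hc, hok⟩ := h1 A
    rcases hc with hc | ⟨x, hx, hW⟩
    · exact absurd hok (hA 0 c (Or.inl hc))
    · rcases List.mem_cons.1 hx with rfl | hx
      · exact ⟨c, hok, hW⟩
      · exact absurd hok (hA e c (Or.inr ⟨x, hx, hW⟩))

/-- being the list `LL S n` is c.e. relative to the halting problem -/
theorem LL_re {S : Info → Prop} (hS : REPred S) :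
    REIn (jump ∅) fun p : ℕ × List ℕ => LL S p.1 = p.2 := by
  obtain ⟨f, hf, hfE⟩ := REIn_iff_jump.1 (REIn.of_re (A := ∅) (emp_re hS))
  have hE : ∀ {α : Type} [Primcodable α] {g : α → List ℕ}, Computable g →
      REIn (jump ∅) fun a => Emp S (g a) := by
    intro α _ g hg
    exact (REIn.mem (hf.comp hg)).of_eq fun a => (hfE (g a)).symm
  have hN : ∀ {α : Type} [Primcodable α] {g : α → List ℕ}, Computable g →
      REIn (jump ∅) fun a => ¬ Emp S (g a) := by
    intro α _ g hg
    exact (REIn.not_mem (hf.comp hg)).of_eq fun a => not_congr (hfE (g a)).symm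
  let get : List (List ℕ) → ℕ → List ℕ := fun s i => (s[i]?).getD []
  have hget : Computable fun p : List (List ℕ) × ℕ => get p.1 p.2 :=
    Primrec.option_getD.to_comp.comp (by fun_prop) (by fun_prop)
  have h1 : REIn (jump ∅) fun p : ℕ × List ℕ => ∃ s : List (List ℕ), get s 0 = [] ∧
      (∀ i < p.1, (Emp S (i :: get s i) ∧ get s (i + 1) = get s i) ∨
        (¬ Emp S (i :: get s i) ∧ get s (i + 1) = i :: get s i)) ∧ get s p.1 = p.2 := by
    refine REIn.ex (S := fun (p : ℕ × List ℕ) (s : List (List ℕ)) => get s 0 = [] ∧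
      (∀ i < p.1, (Emp S (i :: get s i) ∧ get s (i + 1) = get s i) ∨
        (¬ Emp S (i :: get s i) ∧ get s (i + 1) = i :: get s i)) ∧ get s p.1 = p.2) ?_
    refine REIn.and (REIn.of_re (RE.eq ?_ (by fun_prop))) (REIn.and ?_
      (REIn.of_re (RE.eq ?_ (by fun_prop))))
    · exact hget.comp (f := fun p : List (List ℕ) × ℕ => get p.1 p.2)
        (g := fun x : (ℕ × List ℕ) × List (List ℕ) => (x.2, 0)) (by fun_prop)
    · refine REIn.all_lt (S := fun (x : (ℕ × List ℕ) × List (List ℕ)) (i : ℕ) =>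
        (Emp S (i :: get x.2 i) ∧ get x.2 (i + 1) = get x.2 i) ∨
        (¬ Emp S (i :: get x.2 i) ∧ get x.2 (i + 1) = i :: get x.2 i)) ?_ (by fun_prop)
      have hg1 : Computable fun x : ((ℕ × List ℕ) × List (List ℕ)) × ℕ => get x.1.2 x.2 :=
        hget.comp (f := fun p : List (List ℕ) × ℕ => get p.1 p.2)
          (g := fun x : ((ℕ × List ℕ) × List (List ℕ)) × ℕ => (x.1.2, x.2)) (by fun_prop)
      have hg2 : Computable fun x : ((ℕ × List ℕ) × List (List ℕ)) × ℕ => get x.1.2 (x.2 + 1) :=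
        hget.comp (f := fun p : List (List ℕ) × ℕ => get p.1 p.2)
          (g := fun x : ((ℕ × List ℕ) × List (List ℕ)) × ℕ => (x.1.2, x.2 + 1)) (by fun_prop)
      have hg3 : Computable fun x : ((ℕ × List ℕ) × List (List ℕ)) × ℕ => x.2 :: get x.1.2 x.2 :=
        Computable.list_cons.comp Computable.snd hg1
      exact REIn.or (REIn.and (hE hg3) (REIn.of_re (RE.eq hg2 hg1)))
        (REIn.and (hN hg3) (REIn.of_re (RE.eq hg2 hg3)))
    · exact hget.comp (f := fun p : List (List ℕ) × ℕ => get p.1 p.2)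
        (g := fun x : (ℕ × List ℕ) × List (List ℕ) => (x.2, x.1.1)) (by fun_prop)
  refine h1.of_eq fun p => ?_
  constructor
  · rintro ⟨s, h2, h3, h4⟩
    have h5 : ∀ i ≤ p.1, get s i = LL S i := by
      intro i
      induction i with
      | zero => intro _; exact h2
      | succ i ih =>
        intro hi
        have h6 := ih (by omega)
        rcases h3 i (by omega) with ⟨h7, h8⟩ | ⟨h7, h8⟩
        · rw [h6] at h7 h8
          rw [h8, LL_succ_pos h7]
        · rw [h6] at h7 h8
          rw [h8, LL_succ_neg h7]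
    rw [← h4, h5 p.1 le_rfl]
  · intro h2
    refine ⟨(List.range (p.1 + 1)).map (LL S), ?_, ?_, ?_⟩
    · simp [get, LL]
    · intro i hi
      have h3 : get ((List.range (p.1 + 1)).map (LL S)) i = LL S i := by
        have : i < p.1 + 1 := by omega
        simp [get, this]
      have h4 : get ((List.range (p.1 + 1)).map (LL S)) (i + 1) = LL S (i + 1) := by
        have : i + 1 < p.1 + 1 := by omega
        simp [get, this]
      rw [h3, h4]
      by_cases h5 : Emp S (i :: LL S i)
      · exact Or.inl ⟨h5, LL_succ_pos h5⟩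
      · exact Or.inr ⟨h5, LL_succ_neg h5⟩
    · rw [← h2]
      simp [get]

/-- **The low basis theorem** of Jockusch and Soare. -/
theorem low_basis {S : Info → Prop} (hS : REPred S) (hne : ∃ A : Set ℕ, ∀ c, S c → ¬ Ok A c) :
    ∃ A : Set ℕ, (∀ c, S c → ¬ Ok A c) ∧ Red (jump A) (jump ∅) := by
  have h0 : ¬ Emp S [] := by
    intro h
    obtain ⟨A, hA⟩ := hne
    obtain ⟨c, hc, hok⟩ := h A
    rcases hc with hc | ⟨e, he, -⟩
    · exact hA c hc hok
    · simp at he
  obtain ⟨A, hA⟩ := exists_member h0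
  refine ⟨A, fun c hc => hA 0 c (Or.inl hc), ?_⟩
  obtain ⟨f, hf, hfE⟩ := REIn_iff_jump.1 (REIn.of_re (A := ∅) (emp_re hS))
  rw [Red_iff]
  have key : ∀ P : List ℕ → Prop, (REIn (jump ∅) fun L : List ℕ => P L) →
      REIn (jump ∅) fun e : ℕ => P (e :: LL S e) := by
    intro P hP
    have h1 : REIn (jump ∅) fun e : ℕ => ∃ l : List ℕ, LL S e = l ∧ P (e :: l) := by
      refine REIn.ex (S := fun (e : ℕ) (l : List ℕ) => LL S e = l ∧ P (e :: l)) ?_
      exact REIn.and (LL_re hS) (REIn.comp hP (f := fun x : ℕ × List ℕ => x.1 :: x.2)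
        (by fun_prop))
    exact h1.of_eq fun e => ⟨fun ⟨l, h2, h3⟩ => h2 ▸ h3, fun h => ⟨_, rfl, h⟩⟩
  constructor
  · refine (key (Emp S) ((REIn.mem hf).of_eq fun L => (hfE L).symm)).of_eq fun e => ?_
    exact (mem_jump_iff hA e).symm
  · refine (key (fun L => ¬ Emp S L)
      ((REIn.not_mem hf).of_eq fun L => not_congr (hfE L).symm)).of_eq fun e => ?_
    exact not_congr (mem_jump_iff hA e).symm

end Pool.Agent.W511.LowB
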