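import Pool.Agent.H269R3.CF.Main
import Pool.Agent.W511.LowB.Low

/-!
# A computable field with a low ordering but without a computable ordered copy
-/

set_option autoImplicit false

namespace Pool.Agent.W511.LowB

open Encodable Pool.Agent.Helper578.JD Pool.Agent.Helper578.JD.Oracle

section field
open Pool.Agent.H269R3.CF

/-- The field of `MP_5ae901_lc` is a subfield of the reals. -/
theorem exists_subfield : ∃ K : Subfield ℝ,
    (∃ e : ℕ ≃ K, Computable₂ (fun a b : ℕ => e.symm (e a + e b)) ∧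
      Computable₂ (fun a b : ℕ => e.symm (e a * e b))) ∧
    ∀ e : ℕ ≃ K, Computable₂ (fun a b : ℕ => e.symm (e a + e b)) →
      Computable₂ (fun a b : ℕ => e.symm (e a * e b)) → ∀ P : Set K,
      ComputablePred (fun a : ℕ => e a ∈ P) → (0 : K) ∉ P →
      (∀ x y : K, x ∈ P → y ∈ P → x + y ∈ P) → (∀ x y : K, x ∈ P → y ∈ P → x * y ∈ P) →
      (∀ x : K, x ≠ 0 → x ∈ P ∨ -x ∈ P) → False := by
  classical
  let ε : ℕ → Bool := fun n => decide (XX n true)
  have hε : ∀ n s, XX n s → ε n = s := by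
    intro n s h
    by_cases h1 : XX n true
    · have := XX_fun n s true h h1
      subst this
      exact decide_eq_true h1
    · cases s
      · exact decide_eq_false h1
      · exact absurd h h1
  obtain ⟨τ, hτ, hs⟩ := exists_tr ε
  have hM := model XX ε hε τ hτ hs
  obtain ⟨E, hE, hI⟩ := exists_E
  obtain ⟨e0, he0⟩ := exists_copy _ _ hM E hE hI
  refine ⟨Subfield.closure (yy τ '' {i | i = 0 ∨ XX (nn i) (ss i)}), ⟨e0, he0.1, he0.2.1⟩, ?_⟩
  intro e hA hMu P hP h0 hadd hmul htot
  have hτK : τ ∈ Subfield.closure (yy τ '' {i | i = 0 ∨ XX (nn i) (ss i)}) :=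
    Subfield.subset_closure ⟨0, Or.inl rfl, yy_zero τ⟩
  refine no_order (Subfield.closure (yy τ '' {i | i = 0 ∨ XX (nn i) (ss i)})) ⟨τ, hτK⟩ ?_ e hA hMu P
    hP h0 hadd hmul htot
  intro n s hns
  -- the letter
  obtain ⟨i, hi0, hin, his⟩ : ∃ i, i ≠ 0 ∧ nn i = n ∧ ss i = s := by
    cases s
    · refine ⟨2 * n + 2, by omega, ?_, ?_⟩
      · unfold nn; omega
      · unfold ss; simp
    · refine ⟨2 * n + 1, by omega, ?_, ?_⟩
      · unfold nn; omega
      · unfold ss; simp
  have hpos : 0 < sr (ss i) * gr (3 * nn i) τ := by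
    rw [his, hin, ← hε n s hns]
    exact hs n
  refine ⟨⟨yy τ i, Subfield.subset_closure ⟨i, Or.inr ?_, rfl⟩⟩, ?_, ?_⟩
  · rw [hin, his]; exact hns
  · intro h
    have h1 : yy τ i = 0 := congrArg Subtype.val h
    rw [yy_ne τ i hi0] at h1
    exact (Real.sqrt_pos.2 hpos).ne' h1
  · apply Subtype.ext
    have h1 : yy τ i * yy τ i = sr (ss i) * gr (3 * nn i) τ := by
      rw [yy_ne τ i hi0, Real.mul_self_sqrt hpos.le]
    rw [Subfield.coe_mul, Subfield.coe_mul, coe_gK]
    show yy τ i * yy τ i = _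
    rw [h1, his, hin]
    congr 1
    cases s <;> simp [sr]

end field

/-- The set of the codes of the pairs `x < y`. -/
def ordSet {F : Type} (e : ℕ ≃ F) (lt : F → F → Prop) : Set ℕ :=
  {n | lt (e n.unpair.1) (e n.unpair.2)}

/-- The forbidden pieces of information for orderings. -/
def bads (ad mu : ℕ → ℕ → ℕ) (z : ℕ) (c : Info) : Prop :=
  ∃ t : ℕ × ℕ × ℕ,
    (c = ([Nat.pair t.1 t.1], []) ∨
    (t.1 ≠ t.2.1 ∧ c = ([], [Nat.pair t.1 t.2.1, Nat.pair t.2.1 t.1])) ∨
    c = ([Nat.pair t.1 t.2.1, Nat.pair t.2.1 t.2.2], [Nat.pair t.1 t.2.2]) ∨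
    c = ([Nat.pair t.1 t.2.1], [Nat.pair (ad t.1 t.2.2) (ad t.2.1 t.2.2)]) ∨
    c = ([Nat.pair z t.1, Nat.pair z t.2.1], [Nat.pair z (mu t.1 t.2.1)]))

theorem bads_re {ad mu : ℕ → ℕ → ℕ} (had : Computable₂ ad) (hmu : Computable₂ mu) (z : ℕ) :
    REPred (bads ad mu z) := by
  have cp : ∀ {α : Type} [Primcodable α] {f g : α → ℕ}, Computable f → Computable g →
      Computable fun a => Nat.pair (f a) (g a) := by
    intro α _ f g hf hg
    exact Primrec₂.natPair.to_comp.comp hf hg
  have t1 : Computable fun x : Info × (ℕ × ℕ × ℕ) => x.2.1 := by fun_prop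
  have t2 : Computable fun x : Info × (ℕ × ℕ × ℕ) => x.2.2.1 := by fun_prop
  have t3 : Computable fun x : Info × (ℕ × ℕ × ℕ) => x.2.2.2 := by fun_prop
  have tz : Computable fun _ : Info × (ℕ × ℕ × ℕ) => z := by fun_prop
  have ne' : Computable fun _ : Info × (ℕ × ℕ × ℕ) => ([] : List ℕ) := by fun_prop
  have l1 : ∀ {f : Info × (ℕ × ℕ × ℕ) → ℕ}, Computable f →
      Computable fun x => [f x] := fun hf => Computable.list_cons.comp hf ne'
  have l2 : ∀ {f g : Info × (ℕ × ℕ × ℕ) → ℕ}, Computable f → Computable g →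
      Computable fun x => [f x, g x] := fun hf hg => Computable.list_cons.comp hf (l1 hg)
  have c0 : Computable fun x : Info × (ℕ × ℕ × ℕ) => x.1 := by fun_prop
  refine RE.ex (p := fun (c : Info) (t : ℕ × ℕ × ℕ) => (c = ([Nat.pair t.1 t.1], []) ∨
    (t.1 ≠ t.2.1 ∧ c = ([], [Nat.pair t.1 t.2.1, Nat.pair t.2.1 t.1])) ∨
    c = ([Nat.pair t.1 t.2.1, Nat.pair t.2.1 t.2.2], [Nat.pair t.1 t.2.2]) ∨
    c = ([Nat.pair t.1 t.2.1], [Nat.pair (ad t.1 t.2.2) (ad t.2.1 t.2.2)]) ∨
    c = ([Nat.pair z t.1, Nat.pair z t.2.1], [Nat.pair z (mu t.1 t.2.1)]))) ?_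
  refine RE.or (RE.eq c0 ((l1 (cp t1 t1)).pair ne')) (RE.or (RE.and (RE.ne t1 t2)
    (RE.eq c0 (ne'.pair (l2 (cp t1 t2) (cp t2 t1))))) (RE.or
    (RE.eq c0 ((l2 (cp t1 t2) (cp t2 t3)).pair (l1 (cp t1 t3)))) (RE.or
    (RE.eq c0 ((l1 (cp t1 t2)).pair (l1 (cp (had.comp t1 t3) (had.comp t2 t3)))))
    (RE.eq c0 ((l2 (cp tz t1) (cp tz t2)).pair (l1 (cp tz (hmu.comp t1 t2))))))))

/-- orderings avoid the forbidden information -/
theorem bads_of_order {F : Type} [Field F] [LinearOrder F] [IsStrictOrderedRing F] (e : ℕ ≃ F) :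
    ∀ c, bads (fun a b => e.symm (e a + e b)) (fun a b => e.symm (e a * e b)) (e.symm 0) c →
      ¬ Ok (ordSet e (fun x y : F => x < y)) c := by
  rintro c ⟨⟨a, b, d⟩, h⟩ ⟨h1, h2⟩
  dsimp only at h
  rcases h with rfl | ⟨hne, rfl⟩ | rfl | rfl | rfl
  · have := h1 _ (List.mem_singleton.2 rfl)
    simp [ordSet] at this
  · have h3 := h2 (Nat.pair a b) (by simp)
    have h4 := h2 (Nat.pair b a) (by simp)
    simp only [ordSet, Nat.unpair_pair, Set.mem_ofPred_eq, not_lt] at h3 h4
    exact hne (e.injective (le_antisymm h4 h3))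
  · have h3 := h1 (Nat.pair a b) (by simp)
    have h4 := h1 (Nat.pair b d) (by simp)
    have h5 := h2 (Nat.pair a d) (by simp)
    simp only [ordSet, Nat.unpair_pair, Set.mem_ofPred_eq] at h3 h4 h5
    exact h5 (h3.trans h4)
  · have h3 := h1 (Nat.pair a b) (by simp)
    have h5 := h2 _ (List.mem_singleton.2 rfl)
    simp only [ordSet, Nat.unpair_pair, Set.mem_ofPred_eq, Equiv.apply_symm_apply] at h3 h5
    exact h5 (by linarith)
  · have h3 := h1 (Nat.pair (e.symm 0) a) (by simp)
    have h4 := h1 (Nat.pair (e.symm 0) b) (by simp)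
    have h5 := h2 _ (List.mem_singleton.2 rfl)
    simp only [ordSet, Nat.unpair_pair, Set.mem_ofPred_eq, Equiv.apply_symm_apply] at h3 h4 h5
    exact h5 (mul_pos h3 h4)

/-- sets avoiding the forbidden information come from orderings -/
theorem order_of_bads {F : Type} [Field F] (e : ℕ ≃ F) (A : Set ℕ)
    (hA : ∀ c, bads (fun a b => e.symm (e a + e b)) (fun a b => e.symm (e a * e b)) (e.symm 0) c →
      ¬ Ok A c) :
    ∃ (_ : LinearOrder F) (_ : IsStrictOrderedRing F), ordSet e (fun x y : F => x < y) = A := by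
  classical
  have irr : ∀ a, Nat.pair a a ∉ A := by
    intro a h
    exact hA ([Nat.pair a a], []) ⟨(a, a, a), Or.inl rfl⟩
      ⟨fun x hx => by rw [List.mem_singleton.1 hx]; exact h, fun x hx => by simp at hx⟩
  have tot : ∀ a b, a ≠ b → Nat.pair a b ∈ A ∨ Nat.pair b a ∈ A := by
    intro a b hab
    by_contra hno
    push Not at hno
    refine hA ([], [Nat.pair a b, Nat.pair b a]) ⟨(a, b, a), Or.inr (Or.inl ⟨hab, rfl⟩)⟩
      ⟨fun x hx => by simp at hx, fun x hx => ?_⟩
    simp only [List.mem_cons, List.not_mem_nil, or_false] at hx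
    rcases hx with rfl | rfl
    exacts [hno.1, hno.2]
  have tra : ∀ a b d, Nat.pair a b ∈ A → Nat.pair b d ∈ A → Nat.pair a d ∈ A := by
    intro a b d h1 h2
    by_contra hno
    refine hA ([Nat.pair a b, Nat.pair b d], [Nat.pair a d])
      ⟨(a, b, d), Or.inr (Or.inr (Or.inl rfl))⟩ ⟨fun x hx => ?_, fun x hx => ?_⟩
    · simp only [List.mem_cons, List.not_mem_nil, or_false] at hx
      rcases hx with rfl | rfl
      exacts [h1, h2]
    · rw [List.mem_singleton.1 hx]; exact hno
  have hadd : ∀ a b d, Nat.pair a b ∈ A →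
      Nat.pair (e.symm (e a + e d)) (e.symm (e b + e d)) ∈ A := by
    intro a b d h1
    by_contra hno
    exact hA ([Nat.pair a b], [Nat.pair (e.symm (e a + e d)) (e.symm (e b + e d))])
      ⟨(a, b, d), Or.inr (Or.inr (Or.inr (Or.inl rfl)))⟩
      ⟨fun x hx => by rw [List.mem_singleton.1 hx]; exact h1,
        fun x hx => by rw [List.mem_singleton.1 hx]; exact hno⟩
  have hmul : ∀ a b, Nat.pair (e.symm 0) a ∈ A → Nat.pair (e.symm 0) b ∈ A →
      Nat.pair (e.symm 0) (e.symm (e a * e b)) ∈ A := by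
    intro a b h1 h2
    by_contra hno
    refine hA ([Nat.pair (e.symm 0) a, Nat.pair (e.symm 0) b],
      [Nat.pair (e.symm 0) (e.symm (e a * e b))])
      ⟨(a, b, a), Or.inr (Or.inr (Or.inr (Or.inr rfl)))⟩ ⟨fun x hx => ?_, fun x hx => ?_⟩
    · simp only [List.mem_cons, List.not_mem_nil, or_false] at hx
      rcases hx with rfl | rfl
      exacts [h1, h2]
    · rw [List.mem_singleton.1 hx]; exact hno
  let lt : F → F → Prop := fun x y => Nat.pair (e.symm x) (e.symm y) ∈ A
  have irr' : ∀ x, ¬ lt x x := fun x => irr _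
  have tra' : ∀ x y z, lt x y → lt y z → lt x z := fun x y z => tra _ _ _
  have tot' : ∀ x y, x ≠ y → lt x y ∨ lt y x := fun x y h =>
    tot _ _ fun h1 => h (e.symm.injective h1)
  have add' : ∀ x y z, lt x y → lt (x + z) (y + z) := by
    intro x y z h
    have := hadd _ _ (e.symm z) h
    simpa [lt] using this
  have mul' : ∀ x y, lt 0 x → lt 0 y → lt 0 (x * y) := by
    intro x y h1 h2
    have := hmul _ _ h1 h2
    simpa [lt] using this
  let lo : LinearOrder F :=
    { le := fun x y => x = y ∨ lt x y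
      lt := lt
      le_refl := fun x => Or.inl rfl
      le_trans := by
        rintro x y z (rfl | h1) (rfl | h2)
        · exact Or.inl rfl
        · exact Or.inr h2
        · exact Or.inr h1
        · exact Or.inr (tra' _ _ _ h1 h2)
      lt_iff_le_not_ge := by
        intro x y
        constructor
        · intro h
          refine ⟨Or.inr h, ?_⟩
          rintro (rfl | h2)
          · exact irr' _ h
          · exact irr' _ (tra' _ _ _ h h2)
        · rintro ⟨rfl | h1, h2⟩
          · exact absurd (Or.inl rfl) h2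
          · exact h1
      le_antisymm := by
        rintro x y (rfl | h1) (h | h2)
        · rfl
        · rfl
        · exact h.symm
        · exact absurd (tra' _ _ _ h1 h2) (irr' _)
      le_total := by
        intro x y
        by_cases h : x = y
        · exact Or.inl (Or.inl h)
        · rcases tot' x y h with h1 | h1
          exacts [Or.inl (Or.inr h1), Or.inr (Or.inr h1)]
      toDecidableLE := Classical.decRel _ }
  have hltdef : ∀ x y : F, x < y ↔ lt x y := fun _ _ => Iff.rfl
  have hring : IsStrictOrderedRing F := by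
    have hoa : IsOrderedAddMonoid F := by
      refine IsOrderedAddMonoid.mk (fun x y h z => ?_) (fun x y h z => ?_)
      · rcases h with rfl | h
        · exact le_refl _
        · refine Or.inr ?_
          exact add' x y z h
      · rcases h with rfl | h
        · exact le_refl _
        · refine Or.inr ?_
          have := add' x y z h
          first
            | exact this
            | (rw [add_comm x z, add_comm y z] at this; exact this)
    have h01 : (0 : F) < 1 := by
      rcases tot' 0 1 zero_ne_one with h | h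
      · exact h
      · have h1 : lt 0 (-1) := by
          have := add' 1 0 (-1) h
          simpa using this
        have h2 := mul' _ _ h1 h1
        have h3 : ((-1 : F)) * (-1) = 1 := by ring
        rw [h3] at h2
        exact absurd (tra' _ _ _ h h2) (irr' _)
    have : ZeroLEOneClass F := ⟨h01.le⟩
    exact IsStrictOrderedRing.of_mul_pos (fun x y hx hy => mul' x y hx hy)
  refine ⟨lo, hring, ?_⟩
  ext n
  show lt _ _ ↔ _
  simp [lt]

end Pool.Agent.W511.LowB
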